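import Pool.Agent.Helper20.RL.St1

set_option autoImplicit false

/-! Module LLP of project RL (MP_cb927e_an): averages at a point near a rich cell. -/

open MeasureTheory Set Filter Topology
open scoped ENNReal RealInnerProductSpace

namespace Pool.Agent.Helper62.RL

open Pool.Agent.Helper68.LM (Pl BB Bd Av HL ft fm DQ)
open Pool.Agent.Helper20.RG Pool.Agent.Helper20.RL

theorem coord_meas (i : Fin 2) : Measurable (fun x : Pl => x i) :=
  (by fun_prop : Continuous (fun x : Pl => x i)).measurable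

theorem lint_scale (c : Pl) {ρ : ℝ} (hρ : 0 < ρ) (h : Pl → ℝ≥0∞) (hm : Measurable h) :
    ∫⁻ w, h (c - ρ • w) = ENNReal.ofReal ((ρ ^ 2)⁻¹) * ∫⁻ y, h y := by
  have h1 : ∫⁻ w, h (c - ρ • w) = ∫⁻ v, h (c - v) ∂(Measure.map (fun w : Pl => ρ • w) volume) := by
    have h0 : Measurable (fun v : Pl => h (c - v)) := hm.comp (measurable_const.sub measurable_id)
    rw [lintegral_map h0 (measurable_const_smul ρ)]
  rw [h1, Measure.map_addHaar_smul volume hρ.ne', lintegral_smul_measure,
    lintegral_sub_left_eq_self (fun v => h v) c]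
  have h2 : Module.finrank ℝ Pl = 2 := by
    show Module.finrank ℝ (EuclideanSpace ℝ (Fin 2)) = 2
    rw [finrank_euclideanSpace, Fintype.card_fin]
  rw [h2, abs_of_pos (by positivity), smul_eq_mul]

theorem hLLP (hPT : StPT) (hMEA : StMEA) (hLGR : StLGR) : StLLP := by
  intro s a b F θ y z hs hba hF hθ h0 h1 hR
  obtain ⟨hFm, -⟩ := hF
  have h2a : (0 : ℝ) < (2 : ℝ) ^ a := by positivity
  have h2b : (0 : ℝ) < (2 : ℝ) ^ b := by positivity
  have hab : (2 : ℝ) ^ b ≤ (2 : ℝ) ^ a := zpow_le_zpow_right₀ (by norm_num) hba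
  set ρ : ℝ := 8 * (2 : ℝ) ^ b with hρ
  set T : ℝ := 8 * (2 : ℝ) ^ a with hT
  have hρ0 : 0 < ρ := by positivity
  have hT0 : 0 < T := by positivity
  have he0 : (E s) 0 = 1 := (hPT.1 1 s).1
  have he1 : (E s) 1 = s := (hPT.1 1 s).2
  obtain ⟨⟨-, hbx, -⟩, hsg, -⟩ := hMEA
  obtain ⟨hsgB, hsg1⟩ := hsg s hs
  have : IsProbabilityMeasure bx := ⟨hbx⟩
  have : IsProbabilityMeasure (sg s) := ⟨hsg1⟩
  set gF : Pl → ℝ := F.indicator 1 with hgF
  set gE : Pl → ℝ≥0∞ := F.indicator 1 with hgE
  have hgFm : Measurable gF := measurable_one.indicator hFm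
  have hgEm : Measurable gE := measurable_one.indicator hFm
  have hgF0 : ∀ x, 0 ≤ gF x := fun x => Set.indicator_nonneg (fun _ _ => zero_le_one) x
  have hgF1 : ∀ x, gF x ≤ 1 := fun x => Set.indicator_le_self' (fun _ _ => zero_le_one) x
  have hconv : ∀ x, ENNReal.ofReal (gF x) = gE x := by
    intro x
    by_cases hx : x ∈ F
    · simp [hgF, hgE, hx]
    · simp [hgF, hgE, hx]
  have hcs : Continuous (fun t : ℝ => t • E s) := continuous_id.smul continuous_const
  -- the inner average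
  have hint1 : ∀ x, Integrable (fun v => gF (x - T • v)) (sg s) := by
    intro x
    refine Integrable.of_bound (C := 1)
      (hgFm.comp (measurable_const.sub (measurable_const_smul T))).aestronglyMeasurable ?_
    refine Filter.Eventually.of_forall fun v => ?_
    rw [Real.norm_eq_abs, abs_of_nonneg (hgF0 _)]
    exact hgF1 _
  have hA0 : ∀ x, 0 ≤ Av (sg s) T gF x := fun x => integral_nonneg fun v => hgF0 _
  have hA1 : ∀ x, Av (sg s) T gF x ≤ 1 := by
    intro x
    calc Av (sg s) T gF x ≤ ∫ _v, (1 : ℝ) ∂(sg s) :=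
          integral_mono (hint1 x) (integrable_const 1) fun v => hgF1 _
      _ = 1 := by simp
  have hA : ∀ x, ENNReal.ofReal (Av (sg s) T gF x) =
      ∫⁻ t in Icc (-(1 / 2) : ℝ) (1 / 2), gE (x - T • (t • E s)) := by
    intro x
    unfold Av
    rw [ofReal_integral_eq_lintegral_ofReal (hint1 x) (Filter.Eventually.of_forall fun v => hgF0 _)]
    simp only [hconv]
    unfold sg
    have h3 : Measurable (fun v : Pl => gE (x - T • v)) :=
      hgEm.comp (measurable_const.sub (measurable_const_smul T))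
    rw [lintegral_map h3 hcs.measurable]
  have hHm : Measurable (fun q : Pl × ℝ => gE (q.1 - T • (q.2 • E s))) := by
    refine hgEm.comp ?_
    exact (by fun_prop : Continuous fun q : Pl × ℝ => q.1 - T • (q.2 • E s)).measurable
  have hAm : Measurable (Av (sg s) T gF) := by
    have h3 : Av (sg s) T gF = fun x =>
        (∫⁻ t in Icc (-(1 / 2) : ℝ) (1 / 2), gE (x - T • (t • E s))).toReal := by
      funext x
      rw [← hA x, ENNReal.toReal_ofReal (hA0 x)]
    rw [h3]
    exact (hHm.lintegral_prod_right' (ν := volume.restrict (Icc (-(1 / 2) : ℝ) (1 / 2)))).ennreal_toReal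
  have hint2 : Integrable (fun w => Av (sg s) T gF (y - ρ • w)) bx := by
    refine Integrable.of_bound (C := 1)
      (hAm.comp (measurable_const.sub (measurable_const_smul ρ))).aestronglyMeasurable ?_
    refine Filter.Eventually.of_forall fun v => ?_
    rw [Real.norm_eq_abs, abs_of_nonneg (hA0 _)]
    exact hA1 _
  have hB0 : 0 ≤ Av bx ρ (Av (sg s) T gF) y := integral_nonneg fun v => hA0 _
  have hB : ENNReal.ofReal (Av bx ρ (Av (sg s) T gF) y) =
      ∫⁻ w in Sq 0 (1 / 2), ∫⁻ t in Icc (-(1 / 2) : ℝ) (1 / 2), gE (y - ρ • w - T • (t • E s)) := by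
    have h3 : ENNReal.ofReal (Av bx ρ (Av (sg s) T gF) y) =
        ∫⁻ w, ENNReal.ofReal (Av (sg s) T gF (y - ρ • w)) ∂bx := by
      unfold Av at hint2 hA0 ⊢
      rw [ofReal_integral_eq_lintegral_ofReal hint2 (Filter.Eventually.of_forall fun v => hA0 _)]
    rw [h3]
    simp only [hA]
    rfl
  rw [← ENNReal.ofReal_le_ofReal_iff hB0, hB]
  -- exchange
  have hH2 : Measurable (Function.uncurry fun (w : Pl) (t : ℝ) =>
      gE (y - ρ • w - T • (t • E s))) := by
    refine hgEm.comp ?_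
    exact (by fun_prop : Continuous fun q : Pl × ℝ => y - ρ • q.1 - T • (q.2 • E s)).measurable
  rw [lintegral_lintegral_swap hH2.aemeasurable]
  -- the set
  set G : Set Pl := F ∩ RQ s a b z with hG
  have hGm : MeasurableSet G := hFm.inter (hLGR.1 s a b z).1
  have hGv : ENNReal.ofReal (θ * (2 : ℝ) ^ (a + b)) ≤ volume G := hR
  have hSqm : ∀ c : Pl, MeasurableSet (Sq c (ρ / 2)) := fun c => (hPT.2.2.2.2.2.2.2 c (ρ / 2) (by positivity)).1
  have hinner : ∀ t : ℝ, ENNReal.ofReal ((ρ ^ 2)⁻¹) *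
      ∫⁻ y' in G, (Sq (y - T • (t • E s)) (ρ / 2)).indicator (1 : Pl → ℝ≥0∞) y' ≤
      ∫⁻ w in Sq 0 (1 / 2), gE (y - ρ • w - T • (t • E s)) := by
    intro t
    set c : Pl := y - T • (t • E s) with hc
    have h3 : ∫⁻ y' in G, (Sq c (ρ / 2)).indicator (1 : Pl → ℝ≥0∞) y' =
        ∫⁻ y', (G ∩ Sq c (ρ / 2)).indicator (1 : Pl → ℝ≥0∞) y' := by
      rw [← lintegral_indicator hGm]
      refine lintegral_congr fun y' => ?_
      rw [Set.indicator_indicator]
    rw [h3, ← lint_scale c hρ0 _ (measurable_one.indicator (hGm.inter (hSqm c))),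
      ← lintegral_indicator (hPT.2.2.2.2.2.2.2 0 (1 / 2) (by norm_num)).1]
    refine lintegral_mono fun w => ?_
    by_cases hw : c - ρ • w ∈ G ∩ Sq c (ρ / 2)
    · have hw1 : w ∈ Sq 0 (1 / 2) := by
        obtain ⟨q0, q1⟩ := hw.2
        have e0 : (c - ρ • w) 0 - c 0 = -(ρ * w 0) := by
          simp
        have e1 : (c - ρ • w) 1 - c 1 = -(ρ * w 1) := by
          simp
        rw [e0, abs_neg, abs_mul, abs_of_pos hρ0] at q0
        rw [e1, abs_neg, abs_mul, abs_of_pos hρ0] at q1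
        refine ⟨?_, ?_⟩
        · show |w 0 - (0 : Pl) 0| ≤ 1 / 2
          have : (0 : Pl) 0 = 0 := rfl
          rw [this, sub_zero]
          nlinarith
        · show |w 1 - (0 : Pl) 1| ≤ 1 / 2
          have : (0 : Pl) 1 = 0 := rfl
          rw [this, sub_zero]
          nlinarith
      have hw2 : y - ρ • w - T • (t • E s) ∈ F := by
        have : y - ρ • w - T • (t • E s) = c - ρ • w := by
          rw [hc]
          abel
        rw [this]
        exact hw.1.1
      simp only [Set.indicator_of_mem hw, Set.indicator_of_mem hw1]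
      rw [hgE, Set.indicator_of_mem hw2]
      exact le_refl _
    · simp only [Set.indicator_of_notMem hw]
      exact zero_le
  have hlow : ∀ y' ∈ G, ENNReal.ofReal (1 / 2 * (2 : ℝ) ^ (b - a)) ≤
      ∫⁻ t in Icc (-(1 / 2) : ℝ) (1 / 2),
        (Sq (y - T • (t • E s)) (ρ / 2)).indicator (1 : Pl → ℝ≥0∞) y' := by
    intro y' hy'
    obtain ⟨r0, r1, -⟩ := hLGR.2.2.2.1 s a b z y' hs hy'.2
    have d0 : |y' 0 - y 0| < 2 * (2 : ℝ) ^ a := by
      have := abs_sub_le (y' 0) (z 0) (y 0)
      rw [abs_sub_comm (z 0) (y 0)] at this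
      linarith
    have d1 : |pr s y' - pr s y| < 2 * (2 : ℝ) ^ b := by
      have := abs_sub_le (pr s y') (pr s z) (pr s y)
      rw [abs_sub_comm (pr s z) (pr s y)] at this
      linarith
    set J : Set ℝ := Icc ((-(2 * (2 : ℝ) ^ b) - (y' 0 - y 0)) / T) ((2 * (2 : ℝ) ^ b - (y' 0 - y 0)) / T)
      with hJ
    have hJv : volume J = ENNReal.ofReal (1 / 2 * (2 : ℝ) ^ (b - a)) := by
      rw [hJ, Real.volume_Icc]
      congr 1
      rw [zpow_sub₀ (by norm_num : (2 : ℝ) ≠ 0), hT]
      field_simp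
      ring
    rw [← hJv]
    have hJd : ∀ t ∈ J, |y' 0 - y 0 + T * t| ≤ 2 * (2 : ℝ) ^ b := by
      intro t ht
      obtain ⟨t1, t2⟩ := ht
      rw [div_le_iff₀ hT0] at t1
      rw [le_div_iff₀ hT0] at t2
      rw [abs_le]
      constructor <;> linarith
    have hJs : J ⊆ Icc (-(1 / 2) : ℝ) (1 / 2) := by
      intro t ht
      have h3 := abs_le.1 (hJd t ht)
      have h4 := abs_lt.1 d0
      constructor
      · by_contra h5
        push Not at h5
        have : T * t < T * (-(1 / 2)) := mul_lt_mul_of_pos_left h5 hT0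
        rw [hT] at this h3
        nlinarith
      · by_contra h5
        push Not at h5
        have : T * (1 / 2) < T * t := mul_lt_mul_of_pos_left h5 hT0
        rw [hT] at this h3
        nlinarith
    have hJ1 : volume J = ∫⁻ t in Icc (-(1 / 2) : ℝ) (1 / 2), J.indicator (1 : ℝ → ℝ≥0∞) t := by
      rw [lintegral_indicator_one measurableSet_Icc, Measure.restrict_apply measurableSet_Icc,
        Set.inter_eq_left.2 hJs]
    rw [hJ1]
    refine lintegral_mono fun t => ?_
    by_cases ht : t ∈ J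
    · have h3 := hJd t ht
      have hin : y' ∈ Sq (y - T • (t • E s)) (ρ / 2) := by
        have c0 : (y - T • (t • E s)) 0 = y 0 - T * (t * 1) := by
          simp [he0]
        have c1 : (y - T • (t • E s)) 1 = y 1 - T * (t * s) := by
          simp [he1]
        refine ⟨?_, ?_⟩
        · rw [c0]
          have e : y' 0 - (y 0 - T * (t * 1)) = y' 0 - y 0 + T * t := by ring
          rw [e, hρ]
          linarith
        · rw [c1]
          have e : y' 1 - (y 1 - T * (t * s)) = (pr s y' - pr s y) + s * (y' 0 - y 0 + T * t) := by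
            unfold pr
            ring
          rw [e, hρ]
          have h4 : |s * (y' 0 - y 0 + T * t)| ≤ 2 * (2 : ℝ) ^ b := by
            rw [abs_mul]
            calc |s| * |y' 0 - y 0 + T * t| ≤ 1 * (2 * (2 : ℝ) ^ b) :=
                  mul_le_mul hs h3 (abs_nonneg _) zero_le_one
              _ = 2 * (2 : ℝ) ^ b := one_mul _
          have h5 := abs_add_le (pr s y' - pr s y) (s * (y' 0 - y 0 + T * t))
          linarith
      simp only [Set.indicator_of_mem ht, Set.indicator_of_mem hin]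
      exact le_refl _
    · simp only [Set.indicator_of_notMem ht]
      exact zero_le
  have hm3 : Measurable (Function.uncurry fun (t : ℝ) (y' : Pl) =>
      (Sq (y - T • (t • E s)) (ρ / 2)).indicator (1 : Pl → ℝ≥0∞) y') := by
    have hset : MeasurableSet {q : ℝ × Pl | q.2 ∈ Sq (y - T • (q.1 • E s)) (ρ / 2)} := by
      have hc1 : ∀ i : Fin 2, Continuous fun q : ℝ × Pl => |q.2 i - (y - T • (q.1 • E s)) i| := by
        intro i
        have e : (fun q : ℝ × Pl => |q.2 i - (y - T • (q.1 • E s)) i|) =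
            fun q : ℝ × Pl => |q.2 i - (y i - T * (q.1 * (E s) i))| := by
          funext q
          simp
        rw [e]
        fun_prop
      exact (measurableSet_le (hc1 0).measurable measurable_const).inter
        (measurableSet_le (hc1 1).measurable measurable_const)
    have e : (Function.uncurry fun (t : ℝ) (y' : Pl) =>
        (Sq (y - T • (t • E s)) (ρ / 2)).indicator (1 : Pl → ℝ≥0∞) y') =
        {q : ℝ × Pl | q.2 ∈ Sq (y - T • (q.1 • E s)) (ρ / 2)}.indicator 1 := by
      funext q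
      by_cases hq : q.2 ∈ Sq (y - T • (q.1 • E s)) (ρ / 2)
      · have hq' : q ∈ {q : ℝ × Pl | q.2 ∈ Sq (y - T • (q.1 • E s)) (ρ / 2)} := hq
        rw [Set.indicator_of_mem hq']
        show (Sq (y - T • (q.1 • E s)) (ρ / 2)).indicator (1 : Pl → ℝ≥0∞) q.2 = 1
        rw [Set.indicator_of_mem hq]
        rfl
      · have hq' : q ∉ {q : ℝ × Pl | q.2 ∈ Sq (y - T • (q.1 • E s)) (ρ / 2)} := hq
        rw [Set.indicator_of_notMem hq']
        show (Sq (y - T • (q.1 • E s)) (ρ / 2)).indicator (1 : Pl → ℝ≥0∞) q.2 = 0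
        rw [Set.indicator_of_notMem hq]
    rw [e]
    exact measurable_one.indicator hset
  calc ENNReal.ofReal (θ / 128)
      ≤ ENNReal.ofReal ((ρ ^ 2)⁻¹) * (ENNReal.ofReal (1 / 2 * (2 : ℝ) ^ (b - a)) *
        ENNReal.ofReal (θ * (2 : ℝ) ^ (a + b))) := by
        rw [← ENNReal.ofReal_mul (by positivity), ← ENNReal.ofReal_mul (by positivity)]
        refine ENNReal.ofReal_le_ofReal (le_of_eq ?_)
        rw [hρ, zpow_sub₀ (by norm_num : (2 : ℝ) ≠ 0), zpow_add₀ (by norm_num : (2 : ℝ) ≠ 0)]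
        field_simp
        ring
    _ ≤ ENNReal.ofReal ((ρ ^ 2)⁻¹) * (ENNReal.ofReal (1 / 2 * (2 : ℝ) ^ (b - a)) * volume G) := by
        gcongr
    _ = ENNReal.ofReal ((ρ ^ 2)⁻¹) *
        ∫⁻ _y' in G, ENNReal.ofReal (1 / 2 * (2 : ℝ) ^ (b - a)) := by
        rw [setLIntegral_const]
    _ ≤ ENNReal.ofReal ((ρ ^ 2)⁻¹) * ∫⁻ y' in G, ∫⁻ t in Icc (-(1 / 2) : ℝ) (1 / 2),
        (Sq (y - T • (t • E s)) (ρ / 2)).indicator (1 : Pl → ℝ≥0∞) y' := by
        exact mul_le_mul_of_nonneg_left (setLIntegral_mono' hGm hlow) (zero_le)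
    _ = ENNReal.ofReal ((ρ ^ 2)⁻¹) * ∫⁻ t in Icc (-(1 / 2) : ℝ) (1 / 2), ∫⁻ y' in G,
        (Sq (y - T • (t • E s)) (ρ / 2)).indicator (1 : Pl → ℝ≥0∞) y' := by
        rw [lintegral_lintegral_swap hm3.aemeasurable]
    _ = ∫⁻ t in Icc (-(1 / 2) : ℝ) (1 / 2), ENNReal.ofReal ((ρ ^ 2)⁻¹) * ∫⁻ y' in G,
        (Sq (y - T • (t • E s)) (ρ / 2)).indicator (1 : Pl → ℝ≥0∞) y' := by
        rw [lintegral_const_mul]
        exact hm3.lintegral_prod_right' (ν := volume.restrict G)
    _ ≤ _ := lintegral_mono fun t => hinner t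

end Pool.Agent.Helper62.RL
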